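import Pool.Agent.Helper36.JJ.Defs

/-!
JJ-12. Gradients at points with algebraically independent values: the Jacobian criterion, by
derivations of the reals.
-/

set_option autoImplicit false

namespace Pool.Agent.Helper36.JJ

open MvPolynomial

/-- The dual numbers over the reals, without algebra structures. -/
private def GaW : Type := TrivSqZeroExt ℝ ℝ

private noncomputable instance : CommRing GaW := inferInstanceAs (CommRing (TrivSqZeroExt ℝ ℝ))

private noncomputable def gaFst : GaW →+* ℝ := (TrivSqZeroExt.fstHom ℝ ℝ ℝ).toRingHom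

private theorem ga_exists_lift {R : Type} [CommRing R] [Algebra R ℝ] [Algebra.FormallySmooth R ℝ]
    (φ : R →+* GaW) (hφ : ∀ r, gaFst (φ r) = algebraMap R ℝ r) :
    ∃ ψ : ℝ →+* GaW, (∀ x, gaFst (ψ x) = x) ∧ ∀ r, ψ (algebraMap R ℝ r) = φ r := by
  let : Algebra R GaW := φ.toAlgebra
  let g : GaW →ₐ[R] ℝ := { gaFst with commutes' := fun r => hφ r }
  have hg : Function.Surjective g := fun x => ⟨TrivSqZeroExt.inl x, rfl⟩
  have hker : IsNilpotent (RingHom.ker (g : GaW →+* ℝ)) := by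
    refine ⟨2, ?_⟩
    rw [sq, Submodule.zero_eq_bot, eq_bot_iff, Ideal.mul_le]
    intro x hx y hy
    rw [RingHom.mem_ker] at hx hy
    have hx' : TrivSqZeroExt.fst (R := ℝ) (M := ℝ) x = 0 := hx
    have hy' : TrivSqZeroExt.fst (R := ℝ) (M := ℝ) y = 0 := hy
    rw [Ideal.mem_bot]
    have : (show TrivSqZeroExt ℝ ℝ from x) * (show TrivSqZeroExt ℝ ℝ from y) = 0 := by
      apply TrivSqZeroExt.ext
      · rw [TrivSqZeroExt.fst_mul]; simp [hx', hy']
      · rw [TrivSqZeroExt.snd_mul]; simp [hx', hy']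
    exact this
  let f : ℝ →ₐ[R] GaW := Algebra.FormallySmooth.liftOfSurjective (AlgHom.id R ℝ) g hg hker
  refine ⟨f.toRingHom, ?_, ?_⟩
  · intro x
    exact Algebra.FormallySmooth.liftOfSurjective_apply (AlgHom.id R ℝ) g hg hker x
  · intro r
    exact f.commutes r

private theorem ga_derivation (ψ : ℝ →+* GaW) (h : ∀ x, gaFst (ψ x) = x) :
    ∃ D : Derivation ℚ ℝ ℝ, ∀ x, D x = TrivSqZeroExt.snd (R := ℝ) (M := ℝ) (ψ x) := by
  let δ : ℝ →+ ℝ :=
    { toFun := fun x => TrivSqZeroExt.snd (R := ℝ) (M := ℝ) (ψ x)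
      map_zero' := by rw [map_zero]; rfl
      map_add' := fun x y => by rw [map_add]; rfl }
  refine ⟨Derivation.mk' δ.toRatLinearMap ?_, fun x => rfl⟩
  intro x y
  have h1 : ψ (x * y) = ψ x * ψ y := map_mul ψ x y
  have hx : TrivSqZeroExt.fst (R := ℝ) (M := ℝ) (ψ x) = x := h x
  have hy : TrivSqZeroExt.fst (R := ℝ) (M := ℝ) (ψ y) = y := h y
  show TrivSqZeroExt.snd (R := ℝ) (M := ℝ) (ψ (x * y)) =
    x • TrivSqZeroExt.snd (R := ℝ) (M := ℝ) (ψ y) + y • TrivSqZeroExt.snd (R := ℝ) (M := ℝ) (ψ x)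
  rw [h1]
  have h2 := TrivSqZeroExt.snd_mul (R := ℝ) (M := ℝ) (show TrivSqZeroExt ℝ ℝ from ψ x)
    (show TrivSqZeroExt ℝ ℝ from ψ y)
  refine h2.trans ?_
  rw [hx, hy]
  simp
  ring

open scoped IntermediateField.algebraAdjoinAdjoin in
private theorem ga_smooth {κ : Type} (y : κ → ℝ) :
    Algebra.FormallySmooth (Algebra.adjoin ℚ (Set.range y)) ℝ := by
  have h1 : Algebra.FormallySmooth (Algebra.adjoin ℚ (Set.range y))
      (IntermediateField.adjoin ℚ (Set.range y)) :=
    .of_isLocalization (nonZeroDivisors _)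
  have h2 : Algebra.FormallySmooth (IntermediateField.adjoin ℚ (Set.range y)) ℝ := by
    obtain ⟨s, hs⟩ := exists_isTranscendenceBasis (IntermediateField.adjoin ℚ (Set.range y)) ℝ
    have h3 := hs.isAlgebraic_field
    have h4 : Algebra.IsSeparable (IntermediateField.adjoin
      (IntermediateField.adjoin ℚ (Set.range y)) (Set.range ((↑) : s → ℝ))) ℝ := inferInstance
    exact .of_algebraicIndependent_of_isSeparable hs.1
  exact .comp _ (IntermediateField.adjoin ℚ (Set.range y)) _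

private theorem ga_exists_D {κ : Type} [DecidableEq κ] (y : κ → ℝ)
    (hy : AlgebraicIndependent ℚ y) (k : κ) :
    ∃ D : Derivation ℚ ℝ ℝ, ∀ j, D (y j) = if j = k then 1 else 0 := by
  have hs := ga_smooth y
  let φ₀ : MvPolynomial κ ℚ →ₐ[ℚ] TrivSqZeroExt ℝ ℝ :=
    aeval fun j => TrivSqZeroExt.inl (y j) + TrivSqZeroExt.inr (if j = k then 1 else 0)
  let φ₁ : Algebra.adjoin ℚ (Set.range y) →+* TrivSqZeroExt ℝ ℝ :=
    φ₀.toRingHom.comp hy.aevalEquiv.symm.toRingEquiv.toRingHom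
  have hfst : ∀ p : MvPolynomial κ ℚ, (φ₀ p).fst = aeval y p := by
    intro p
    have : ((TrivSqZeroExt.fstHom ℚ ℝ ℝ).comp φ₀) = aeval y := by
      ext j
      simp only [φ₀, AlgHom.comp_apply, aeval_X, TrivSqZeroExt.fstHom_apply,
        TrivSqZeroExt.fst_add, TrivSqZeroExt.fst_inl, TrivSqZeroExt.fst_inr, add_zero]
    exact DFunLike.congr_fun this p
  obtain ⟨ψ, h1, h2⟩ := ga_exists_lift (R := Algebra.adjoin ℚ (Set.range y)) φ₁ (by
    intro r
    show (φ₀ (hy.aevalEquiv.symm r)).fst = (r : ℝ)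
    rw [hfst, ← hy.aevalEquiv_apply_coe, AlgEquiv.apply_symm_apply])
  obtain ⟨D, hD⟩ := ga_derivation ψ h1
  refine ⟨D, fun j => ?_⟩
  have h3 : y j ∈ Algebra.adjoin ℚ (Set.range y) := Algebra.subset_adjoin ⟨j, rfl⟩
  have h4 : ψ (y j) = φ₁ ⟨y j, h3⟩ := h2 ⟨y j, h3⟩
  have h5 : hy.aevalEquiv.symm ⟨y j, h3⟩ = X j := by
    rw [AlgEquiv.symm_apply_eq]
    apply Subtype.ext
    rw [hy.aevalEquiv_apply_coe, aeval_X]
  have h6 : φ₁ ⟨y j, h3⟩ = TrivSqZeroExt.inl (y j) + TrivSqZeroExt.inr (if j = k then 1 else 0) := by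
    show φ₀ (hy.aevalEquiv.symm ⟨y j, h3⟩) = _
    rw [h5]
    simp [φ₀]
  rw [hD, h4, h6]
  refine (TrivSqZeroExt.snd_add _ _).trans ?_
  rw [TrivSqZeroExt.snd_inl, TrivSqZeroExt.snd_inr, zero_add]

private theorem ga_chain {ι : Type} [Fintype ι] (D : Derivation ℚ ℝ ℝ) (z : ι → ℝ)
    (f : MvPolynomial ι ℚ) : D (aeval z f) = ∑ i, grad f z i * D (z i) := by
  classical
  unfold grad
  induction f using MvPolynomial.induction_on with
  | C a =>
    have h0 : D ((algebraMap ℚ ℝ) a) = 0 := D.map_algebraMap a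
    simp only [aeval_C, pderiv_C, map_zero, zero_mul, Finset.sum_const_zero]
    exact h0
  | add p q hp hq =>
    simp only [map_add, hp, hq, add_mul, Finset.sum_add_distrib]
  | mul_X p n hp =>
    rw [map_mul, aeval_X, Derivation.leibniz, hp]
    simp only [Derivation.leibniz, map_add, smul_eq_mul, map_mul, aeval_X, add_mul,
      Finset.sum_add_distrib]
    congr 1
    · rw [Finset.sum_eq_single n]
      · simp
      · intro i _ hi
        rw [pderiv_X_of_ne hi.symm]
        simp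
      · intro h; exact absurd (Finset.mem_univ n) h
    · rw [Finset.mul_sum]
      refine Finset.sum_congr rfl fun i _ => ?_
      ring

theorem grad_of_algIndep {ι κ : Type} [Fintype ι] [Fintype κ] (F : κ → MvPolynomial ι ℚ)
    (z : ι → ℝ) (h : AlgebraicIndependent ℚ (fun k => MvPolynomial.aeval z (F k))) :
    LinearIndependent ℝ (fun k => grad (F k) z) := by
  classical
  rw [Fintype.linearIndependent_iff]
  intro c hc k
  obtain ⟨D, hD⟩ := ga_exists_D _ h k
  have h1 : ∑ j, c j * D (aeval z (F j)) = 0 := by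
    simp only [ga_chain, Finset.mul_sum]
    rw [Finset.sum_comm]
    refine Finset.sum_eq_zero fun i _ => ?_
    have h2 := congrFun hc i
    simp only [Finset.sum_apply, Pi.smul_apply, smul_eq_mul, Pi.zero_apply] at h2
    calc ∑ j, c j * (grad (F j) z i * D (z i)) = (∑ j, c j * grad (F j) z i) * D (z i) := by
          rw [Finset.sum_mul]
          exact Finset.sum_congr rfl fun j _ => by ring
      _ = 0 := by rw [h2, zero_mul]
  simp only [hD] at h1
  simpa using h1

end Pool.Agent.Helper36.JJ
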