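import Pool.Agent.Helper36.JJ.Defs

/-!
JJ-19. A curve in the fibre through a regular point (inverse function theorem).
-/

set_option autoImplicit false

namespace Pool.Agent.Helper36.JJ

open MvPolynomial Module

/-- the linear functional of a vector -/
private noncomputable def cvDot {ι : Type} [Fintype ι] (g : ι → ℝ) : (ι → ℝ) →L[ℝ] ℝ :=
  ∑ i, g i • ContinuousLinearMap.proj (R := ℝ) (φ := fun _ : ι => ℝ) i

private theorem cvDot_apply {ι : Type} [Fintype ι] (g v : ι → ℝ) : cvDot g v = ∑ i, g i * v i := by
  simp [cvDot]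

private theorem cv_strict {ι : Type} [Fintype ι] (f : MvPolynomial ι ℚ) (z : ι → ℝ) :
    HasStrictFDerivAt (fun w : ι → ℝ => aeval w f) (cvDot (grad f z)) z := by
  classical
  induction f using MvPolynomial.induction_on with
  | C a =>
    have h1 : cvDot (grad (C a : MvPolynomial ι ℚ) z) = 0 := by
      ext v
      rw [cvDot_apply]
      simp [grad]
    rw [h1]
    simp only [aeval_C]
    exact hasStrictFDerivAt_const _ _
  | add p q hp hq =>
    have h1 : cvDot (grad (p + q) z) = cvDot (grad p z) + cvDot (grad q z) := by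
      ext v
      rw [add_apply, cvDot_apply, cvDot_apply, cvDot_apply,
        ← Finset.sum_add_distrib]
      refine Finset.sum_congr rfl fun i _ => ?_
      simp only [grad, map_add]
      ring
    rw [h1]
    simp only [map_add]
    exact hp.add hq
  | mul_X p n hp =>
    have h2 : HasStrictFDerivAt (fun w : ι → ℝ => w n)
        (ContinuousLinearMap.proj (R := ℝ) (φ := fun _ : ι => ℝ) n) z :=
      (ContinuousLinearMap.proj (R := ℝ) (φ := fun _ : ι => ℝ) n).hasStrictFDerivAt
    have h3 := hp.mul h2
    have h1 : cvDot (grad (p * X n) z) = (aeval z p) •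
        (ContinuousLinearMap.proj (R := ℝ) (φ := fun _ : ι => ℝ) n) + z n • cvDot (grad p z) := by
      ext v
      rw [add_apply, smul_apply, smul_apply, cvDot_apply, cvDot_apply]
      simp only [grad, Derivation.leibniz, map_add, smul_eq_mul, map_mul, aeval_X, add_mul,
        Finset.sum_add_distrib, ContinuousLinearMap.proj_apply]
      congr 1
      · rw [Finset.sum_eq_single n]
        · simp
        · intro i _ hi
          rw [pderiv_X_of_ne hi.symm]
          simp
        · intro h; exact absurd (Finset.mem_univ n) h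
      · rw [Finset.mul_sum]
        refine Finset.sum_congr rfl fun i _ => ?_
        ring
    rw [h1]
    simp only [map_mul, aeval_X]
    exact h3

theorem exists_curve {ι κ : Type} [Fintype ι] [Fintype κ] (F : κ → MvPolynomial ι ℚ)
    (hc : Fintype.card κ + 1 = Fintype.card ι) (z : ι → ℝ)
    (h : LinearIndependent ℝ (fun k => grad (F k) z)) :
    ∃ δ > 0, ∃ γ : ℝ → ι → ℝ, ContinuousOn γ (Set.Icc (-δ) δ) ∧ γ 0 = z ∧
      Set.InjOn γ (Set.Icc (-δ) δ) ∧
      ∀ t ∈ Set.Icc (-δ) δ, ∀ k,
        MvPolynomial.aeval (γ t) (F k) = MvPolynomial.aeval z (F k) := by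
  classical
  -- an additional functional
  obtain ⟨l, hl⟩ : ∃ l : ι → ℝ, l ∉ Submodule.span ℝ (Set.range fun k => grad (F k) z) := by
    by_contra hcon
    push Not at hcon
    have htop : Submodule.span ℝ (Set.range fun k => grad (F k) z) = ⊤ :=
      eq_top_iff.2 fun x _ => hcon x
    have h1 := finrank_span_eq_card h
    rw [htop, finrank_top, finrank_fintype_fun_eq_card] at h1
    omega
  let G : Option κ → ι → ℝ := fun o => o.elim l fun k => grad (F k) z
  have hG : LinearIndependent ℝ G := by
    rw [linearIndependent_option]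
    exact ⟨h, hl⟩
  have hGtop : Submodule.span ℝ (Set.range G) = ⊤ := by
    apply hG.span_eq_top_of_card_eq_finrank'
    rw [finrank_fintype_fun_eq_card, Fintype.card_option, hc]
  -- the map and its derivative
  let Φ : (ι → ℝ) → Option κ → ℝ := fun w o => o.elim (cvDot l w) fun k => aeval w (F k)
  let A : (ι → ℝ) →L[ℝ] Option κ → ℝ := ContinuousLinearMap.pi fun o => cvDot (G o)
  have hA : HasStrictFDerivAt Φ A z := by
    rw [hasStrictFDerivAt_pi']
    intro o
    cases o with
    | none => exact (cvDot l).hasStrictFDerivAt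
    | some k => exact cv_strict (F k) z
  have hinj : Function.Injective A := by
    rw [injective_iff_map_eq_zero]
    intro v hv
    have h1 : ∀ w ∈ Submodule.span ℝ (Set.range G), cvDot w v = 0 := by
      intro w hw
      induction hw using Submodule.span_induction with
      | mem x hx =>
        obtain ⟨o, rfl⟩ := hx
        exact congrFun hv o
      | zero => rw [cvDot_apply]; simp
      | add x y _ _ hx hy =>
        rw [cvDot_apply] at *
        simp only [Pi.add_apply, add_mul, Finset.sum_add_distrib, hx, hy, add_zero]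
      | smul a x _ hx =>
        rw [cvDot_apply] at *
        simp only [Pi.smul_apply, smul_eq_mul, mul_assoc, ← Finset.mul_sum, hx, mul_zero]
    have h2 := h1 v (by rw [hGtop]; trivial)
    rw [cvDot_apply] at h2
    have h3 := (Finset.sum_eq_zero_iff_of_nonneg (fun i _ => mul_self_nonneg (v i))).1 h2
    funext i
    exact mul_self_eq_zero.1 (h3 i (Finset.mem_univ i))
  have hfr : finrank ℝ (ι → ℝ) = finrank ℝ (Option κ → ℝ) := by
    rw [finrank_fintype_fun_eq_card, finrank_fintype_fun_eq_card, Fintype.card_option, hc]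
  have hbij : Function.Bijective (A : (ι → ℝ) →ₗ[ℝ] Option κ → ℝ) :=
    ⟨hinj, (LinearMap.injective_iff_surjective_of_finrank_eq_finrank hfr).1 hinj⟩
  let A' : (ι → ℝ) ≃L[ℝ] (Option κ → ℝ) :=
    (LinearEquiv.ofBijective (A : (ι → ℝ) →ₗ[ℝ] Option κ → ℝ) hbij).toContinuousLinearEquiv
  have hA' : HasStrictFDerivAt Φ (A' : (ι → ℝ) →L[ℝ] Option κ → ℝ) z := by
    have : (A' : (ι → ℝ) →L[ℝ] Option κ → ℝ) = A := by
      ext v o
      rfl
    rw [this]
    exact hA
  let e := hA'.toOpenPartialHomeomorph Φ
  have hez : z ∈ e.source := hA'.mem_toOpenPartialHomeomorph_source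
  have hcoe : ∀ w, e w = Φ w := fun w => rfl
  let c : ℝ → Option κ → ℝ := fun t => Φ z + Pi.single none t
  have hcc : Continuous c := by
    refine continuous_const.add ?_
    exact continuous_single (A := fun _ : Option κ => ℝ) (none : Option κ)
  have hc0 : c 0 = Φ z := by
    show Φ z + Pi.single none 0 = Φ z
    rw [Pi.single_zero, add_zero]
  have htar : c ⁻¹' e.target ∈ nhds (0 : ℝ) := by
    refine hcc.continuousAt.preimage_mem_nhds ?_
    rw [hc0]
    exact e.open_target.mem_nhds (e.map_source hez)
  obtain ⟨ε, hε, hball⟩ := Metric.mem_nhds_iff.1 htar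
  have hIcc : ∀ t ∈ Set.Icc (-(ε / 2)) (ε / 2), c t ∈ e.target := by
    intro t ht
    apply hball
    rw [Metric.mem_ball, Real.dist_eq, sub_zero]
    exact lt_of_le_of_lt (abs_le.2 ht) (by linarith)
  have hval : ∀ t ∈ Set.Icc (-(ε / 2)) (ε / 2), Φ (e.symm (c t)) = c t := by
    intro t ht
    rw [← hcoe]
    exact e.right_inv (hIcc t ht)
  refine ⟨ε / 2, by positivity, fun t => e.symm (c t), ?_, ?_, ?_, ?_⟩
  · exact e.continuousOn_symm.comp hcc.continuousOn hIcc
  · show e.symm (c 0) = z
    rw [hc0, ← hcoe, e.left_inv hez]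
  · intro t ht t' ht' hEq
    have h1 : Φ (e.symm (c t)) = Φ (e.symm (c t')) := congrArg Φ hEq
    rw [hval t ht, hval t' ht'] at h1
    have h2 := congrFun h1 none
    simpa [c] using h2
  · intro t ht k
    have h1 := congrFun (hval t ht) (some k)
    simpa [c, Φ] using h1

end Pool.Agent.Helper36.JJ
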